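import Mathlib

/-!
# MP_b0da8a_co (Aharoni–Zerbib): hypergraphs with small adjacency chromatic number

If the edges of a `k`-uniform hypergraph `H` are coloured with `m` colours such that edges sharing
`k-1` vertices get different colours, then `τ^(k-1)(H) ≤ ⌈m/2⌉ ν^(k-1)(H)`. Consequences: the
Aharoni–Zerbib bound for hypergraphs in which every edge shares `k-1` vertices with at most
`2⌈(k+1)/2⌉ - 1` others, in particular if every `(k-1)`-set lies in at most two edges.
-/

set_option autoImplicit false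

namespace Pool.Agent.Results.MP_b0da8a_co.ColourableAdjacency

open Finset

variable {n : ℕ}

theorem bip (k : ℕ) (hk : 1 ≤ k) (A B : Finset (Finset (Fin n))) (hd : Disjoint A B)
    (hA : ∀ e ∈ A, e.card = k) (hB : ∀ e ∈ B, e.card = k)
    (hAA : ∀ e ∈ A, ∀ f ∈ A, e ≠ f → (e ∩ f).card < k - 1)
    (hBB : ∀ e ∈ B, ∀ f ∈ B, e ≠ f → (e ∩ f).card < k - 1) :
    ∃ C M : Finset (Finset (Fin n)),
      (∀ c ∈ C, c.card = k - 1) ∧ (∀ e ∈ A ∪ B, ∃ c ∈ C, c ⊆ e) ∧ M ⊆ A ∪ B ∧
      (∀ e ∈ M, ∀ f ∈ M, e ≠ f → (e ∩ f).card < k - 1) ∧ C.card ≤ M.card := by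
  classical
  -- neighbourhoods
  set N : Finset (Fin n) → Finset (Finset (Fin n)) :=
    fun a => B.filter (fun b => k - 1 ≤ (a ∩ b).card) with hN
  have hNB : ∀ S : Finset (Finset (Fin n)), S.biUnion N ⊆ B := by
    intro S x hx
    obtain ⟨a, _, ha⟩ := mem_biUnion.1 hx
    exact (mem_filter.1 ha).1
  obtain ⟨S0, hS0, hmax⟩ := exists_max_image A.powerset
    (fun S => (S.card : ℤ) - ((S.biUnion N).card : ℤ)) ⟨∅, empty_mem_powerset A⟩
  rw [mem_powerset] at hS0
  have h0 : (S0.biUnion N).card ≤ S0.card := by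
    have := hmax ∅ (empty_mem_powerset A)
    simp at this
    exact this
  obtain ⟨d, hdd⟩ : ∃ d : ℕ, S0.card = (S0.biUnion N).card + d := ⟨_, (Nat.add_sub_of_le h0).symm⟩
  have hHall : ∀ S ⊆ A, S.card ≤ (S.biUnion N).card + d := by
    intro S hS
    have := hmax S (mem_powerset.2 hS)
    omega
  -- Hall with `d` dummy vertices
  have hex : ∃ f : A → Finset (Fin n) ⊕ Fin d, Function.Injective f ∧
      ∀ x, f x ∈ (N x.1).disjSum (univ : Finset (Fin d)) := by
    rw [← Finset.all_card_le_biUnion_card_iff_exists_injective]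
    intro s
    by_cases hs : s = ∅
    · subst hs; simp
    obtain ⟨a0, ha0⟩ := nonempty_iff_ne_empty.2 hs
    have h1 : ((s.map (Function.Embedding.subtype _)).biUnion N).disjSum (univ : Finset (Fin d)) ⊆
        s.biUnion (fun x => (N x.1).disjSum (univ : Finset (Fin d))) := by
      intro y hy
      rw [mem_disjSum] at hy
      rw [mem_biUnion]
      rcases hy with ⟨b, hb, rfl⟩ | ⟨j, hj, rfl⟩
      · obtain ⟨a, ha, hab⟩ := mem_biUnion.1 hb
        obtain ⟨a', ha', rfl⟩ := mem_map.1 ha
        exact ⟨a', ha', inl_mem_disjSum.2 hab⟩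
      · exact ⟨a0, ha0, inr_mem_disjSum.2 hj⟩
    have h2 := card_le_card h1
    rw [card_disjSum, card_univ, Fintype.card_fin] at h2
    have h3 := hHall (s.map (Function.Embedding.subtype _)) (by
      intro x hx
      obtain ⟨a', _, rfl⟩ := mem_map.1 hx
      exact a'.2)
    rw [card_map] at h3
    exact h3.trans h2
  obtain ⟨f, hfinj, hf⟩ := hex
  -- a `(k-1)`-subset of each edge
  have hsub : ∀ e : Finset (Fin n), ∃ s : Finset (Fin n), e.card = k → s ⊆ e ∧ s.card = k - 1 := by
    intro e
    by_cases he : e.card = k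
    · obtain ⟨s, hs, hc⟩ := exists_subset_card_eq (s := e) (n := k - 1) (by omega)
      exact ⟨s, fun _ => ⟨hs, hc⟩⟩
    · exact ⟨∅, fun h => absurd h he⟩
  choose sub hsub using hsub
  have hcap : ∀ a ∈ A, ∀ b ∈ N a, (a ∩ b).card = k - 1 := by
    intro a ha b hb
    rw [hN, mem_filter] at hb
    have hne : a ≠ b := fun h => disjoint_left.1 hd ha (h ▸ hb.1)
    have hlt : (a ∩ b).card < k := by
      rw [← hA a ha]
      refine card_lt_card ⟨inter_subset_left, fun h => hne ?_⟩
      have h1 : a ⊆ b := fun x hx => (mem_inter.1 (h hx)).2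
      exact eq_of_subset_of_card_le h1 (by rw [hA a ha, hB b hb.1])
    omega
  set c : Finset (Fin n) → Finset (Fin n) := fun b =>
    if h : ∃ a : A, f a = Sum.inl b then (h.choose.1 ∩ b) else sub b with hc
  set c' : Fin d → Finset (Fin n) := fun j =>
    if h : ∃ a : A, f a = Sum.inr j then sub (h.choose.1) else ∅ with hc'
  set U : Finset (Fin d) := univ.filter (fun j => ∃ a : A, f a = Sum.inr j) with hU
  refine ⟨B.image c ∪ U.image c', S0 ∪ (B \ S0.biUnion N), ?_, ?_, ?_, ?_, ?_⟩
  · intro x hx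
    rw [mem_union, mem_image, mem_image] at hx
    rcases hx with ⟨b, hb, rfl⟩ | ⟨j, hj, rfl⟩
    · simp only [hc]
      split_ifs with h
      · have h1 := hf h.choose
        rw [h.choose_spec, inl_mem_disjSum] at h1
        exact hcap _ h.choose.2 _ h1
      · exact (hsub b (hB b hb)).2
    · rw [hU, mem_filter] at hj
      simp only [hc']
      rw [dif_pos hj.2]
      exact (hsub _ (hA _ (hj.2.choose).2)).2
  · intro e he
    rw [mem_union] at he
    rcases he with he | he
    · rcases hfe : f ⟨e, he⟩ with b | j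
      · have h1 := hf ⟨e, he⟩
        rw [hfe, inl_mem_disjSum] at h1
        refine ⟨c b, mem_union_left _ (mem_image_of_mem _ (mem_filter.1 h1).1), ?_⟩
        have hex : ∃ a : A, f a = Sum.inl b := ⟨_, hfe⟩
        simp only [hc]
        rw [dif_pos hex]
        have h2 : hex.choose = ⟨e, he⟩ := hfinj (hex.choose_spec.trans hfe.symm)
        rw [h2]
        exact inter_subset_left
      · have hex : ∃ a : A, f a = Sum.inr j := ⟨_, hfe⟩
        refine ⟨c' j, mem_union_right _ (mem_image_of_mem _ (mem_filter.2 ⟨mem_univ _, hex⟩)), ?_⟩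
        simp only [hc']
        rw [dif_pos hex]
        have h2 : hex.choose = ⟨e, he⟩ := hfinj (hex.choose_spec.trans hfe.symm)
        rw [h2]
        exact (hsub e (hA e he)).1
    · refine ⟨c e, mem_union_left _ (mem_image_of_mem _ he), ?_⟩
      simp only [hc]
      split_ifs with h
      · exact inter_subset_right
      · exact (hsub e (hB e he)).1
  · intro x hx
    rw [mem_union, mem_sdiff] at hx
    rcases hx with h | h
    · exact mem_union_left _ (hS0 h)
    · exact mem_union_right _ h.1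
  · have key : ∀ a ∈ S0, ∀ b ∈ B \ S0.biUnion N, (a ∩ b).card < k - 1 := by
      intro a ha b hb
      rw [mem_sdiff] at hb
      by_contra hcon
      exact hb.2 (mem_biUnion.2 ⟨a, ha, mem_filter.2 ⟨hb.1, by omega⟩⟩)
    intro e he g hg hne
    rw [mem_union] at he hg
    rcases he with he | he <;> rcases hg with hg | hg
    · exact hAA e (hS0 he) g (hS0 hg) hne
    · exact key e he g hg
    · rw [inter_comm]; exact key g hg e he
    · exact hBB e (mem_sdiff.1 he).1 g (mem_sdiff.1 hg).1 hne
  · have h1 : (B.image c ∪ U.image c').card ≤ B.card + d := by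
      refine (card_union_le _ _).trans (Nat.add_le_add card_image_le ?_)
      refine card_image_le.trans ?_
      calc U.card ≤ (univ : Finset (Fin d)).card := card_le_card (filter_subset _ _)
        _ = d := by rw [card_univ, Fintype.card_fin]
    have h2 : Disjoint S0 (B \ S0.biUnion N) :=
      disjoint_of_subset_left hS0 (disjoint_of_subset_right sdiff_subset hd)
    rw [card_union_of_disjoint h2]
    have h3 : (B \ S0.biUnion N).card + (S0.biUnion N).card = B.card :=
      card_sdiff_add_card_eq_card (hNB S0)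
    omega

/-- the adjacency colouring bound -/
theorem colour_bound (k : ℕ) (hk : 1 ≤ k) (m : ℕ) (H : Finset (Finset (Fin n)))
    (hH : ∀ e ∈ H, e.card = k) (c : Finset (Fin n) → ℕ) (hcm : ∀ e ∈ H, c e < m)
    (hc : ∀ e ∈ H, ∀ f ∈ H, e ≠ f → k - 1 ≤ (e ∩ f).card → c e ≠ c f) :
    ∃ C M : Finset (Finset (Fin n)),
      (∀ s ∈ C, s.card = k - 1) ∧ (∀ e ∈ H, ∃ s ∈ C, s ⊆ e) ∧ M ⊆ H ∧
      (∀ e ∈ M, ∀ f ∈ M, e ≠ f → (e ∩ f).card < k - 1) ∧
      C.card ≤ (m + 1) / 2 * M.card := by
  classical
  set t := (m + 1) / 2 with ht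
  have hpair : ∀ j : ℕ, ∃ C M : Finset (Finset (Fin n)),
      (∀ s ∈ C, s.card = k - 1) ∧ (∀ e ∈ H, c e / 2 = j → ∃ s ∈ C, s ⊆ e) ∧ M ⊆ H ∧
      (∀ e ∈ M, ∀ f ∈ M, e ≠ f → (e ∩ f).card < k - 1) ∧ C.card ≤ M.card := by
    intro j
    have hcol : ∀ i : ℕ, ∀ e ∈ H.filter (fun e => c e = i), ∀ f ∈ H.filter (fun e => c e = i),
        e ≠ f → (e ∩ f).card < k - 1 := by
      intro i e he f hf hne
      rw [mem_filter] at he hf
      by_contra hcon
      exact hc e he.1 f hf.1 hne (by omega) (he.2.trans hf.2.symm)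
    obtain ⟨C, M, h1, h2, h3, h4, h5⟩ := bip k hk (H.filter (fun e => c e = 2 * j))
      (H.filter (fun e => c e = 2 * j + 1))
      (by
        rw [disjoint_left]
        intro e he hf
        rw [mem_filter] at he hf
        omega)
      (fun e he => hH e (mem_filter.1 he).1) (fun e he => hH e (mem_filter.1 he).1)
      (hcol _) (hcol _)
    refine ⟨C, M, h1, ?_, ?_, h4, h5⟩
    · intro e he hej
      apply h2
      rw [mem_union, mem_filter, mem_filter]
      have : c e = 2 * j ∨ c e = 2 * j + 1 := by omega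
      rcases this with h | h
      · exact Or.inl ⟨he, h⟩
      · exact Or.inr ⟨he, h⟩
    · intro x hx
      have := h3 hx
      rw [mem_union, mem_filter, mem_filter] at this
      rcases this with h | h
      · exact h.1
      · exact h.1
  choose C M h1 h2 h3 h4 h5 using hpair
  obtain ⟨j0, hj0, hj0max⟩ : ∃ j0 ∈ range (t + 1), ∀ j ∈ range (t + 1), (M j).card ≤ (M j0).card :=
    exists_max_image (range (t + 1)) (fun j => (M j).card) ⟨0, by simp⟩
  refine ⟨(range t).biUnion C, M j0, ?_, ?_, h3 j0, h4 j0, ?_⟩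
  · intro s hs
    obtain ⟨j, _, hj⟩ := mem_biUnion.1 hs
    exact h1 j s hj
  · intro e he
    obtain ⟨s, hs, hse⟩ := h2 (c e / 2) e he rfl
    refine ⟨s, mem_biUnion.2 ⟨c e / 2, mem_range.2 ?_, hs⟩, hse⟩
    have := hcm e he
    omega
  · calc ((range t).biUnion C).card ≤ ∑ j ∈ range t, (C j).card := card_biUnion_le
      _ ≤ ∑ j ∈ range t, (M j0).card := by
          refine sum_le_sum fun j hj => (h5 j).trans (hj0max j ?_)
          rw [mem_range] at hj ⊢
          omega
      _ = t * (M j0).card := by rw [sum_const, card_range, smul_eq_mul]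

/-- greedy colouring -/
theorem greedy (k D : ℕ) (H : Finset (Finset (Fin n)))
    (hdeg : ∀ e ∈ H, (H.filter (fun f => f ≠ e ∧ k - 1 ≤ (e ∩ f).card)).card ≤ D) :
    ∀ K ⊆ H, ∃ c : Finset (Fin n) → ℕ, (∀ e ∈ K, c e < D + 1) ∧
      ∀ e ∈ K, ∀ f ∈ K, e ≠ f → k - 1 ≤ (e ∩ f).card → c e ≠ c f := by
  classical
  intro K
  induction K using Finset.induction_on with
  | empty => intro _; exact ⟨fun _ => 0, by simp, by simp⟩
  | insert a K ha ih =>
    intro hK
    obtain ⟨c, hc1, hc2⟩ := ih ((subset_insert a K).trans hK)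
    have haH : a ∈ H := hK (mem_insert_self a K)
    set Nb := H.filter (fun f => f ≠ a ∧ k - 1 ≤ (a ∩ f).card) with hNb
    have hlt : (Nb.image c).card < (range (D + 1)).card := by
      rw [card_range]
      exact Nat.lt_succ_of_le (card_image_le.trans (hdeg a haH))
    obtain ⟨i, hi, hi'⟩ := exists_mem_notMem_of_card_lt_card hlt
    rw [mem_range] at hi
    have hnew : ∀ f ∈ K, k - 1 ≤ (a ∩ f).card → i ≠ c f := by
      intro f hf hcard hif
      apply hi'
      rw [hif]
      refine mem_image_of_mem _ (mem_filter.2 ⟨hK (mem_insert_of_mem hf), ?_, hcard⟩)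
      rintro rfl
      exact ha hf
    refine ⟨Function.update c a i, ?_, ?_⟩
    · intro e he
      by_cases hea : e = a
      · subst hea; rw [Function.update_self]; exact hi
      · rw [Function.update_of_ne hea]
        exact hc1 e ((mem_insert.1 he).resolve_left hea)
    · intro e he f hf hne hcard
      by_cases hea : e = a
      · subst hea
        have hfe : f ≠ e := fun h => hne h.symm
        rw [Function.update_self, Function.update_of_ne hfe]
        exact hnew f ((mem_insert.1 hf).resolve_left hfe) hcard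
      · by_cases hfa : f = a
        · subst hfa
          rw [Function.update_self, Function.update_of_ne hea]
          rw [inter_comm] at hcard
          exact (hnew e ((mem_insert.1 he).resolve_left hea) hcard).symm
        · rw [Function.update_of_ne hea, Function.update_of_ne hfa]
          exact hc2 e ((mem_insert.1 he).resolve_left hea) f ((mem_insert.1 hf).resolve_left hfa)
            hne hcard

/-- codegree at most two bounds the number of adjacent edges by `k` -/
theorem codeg (k : ℕ) (hk : 1 ≤ k) (H : Finset (Finset (Fin n))) (hH : ∀ e ∈ H, e.card = k)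
    (hco : ∀ s : Finset (Fin n), s.card = k - 1 → (H.filter (fun e => s ⊆ e)).card ≤ 2) :
    ∀ e ∈ H, (H.filter (fun f => f ≠ e ∧ k - 1 ≤ (e ∩ f).card)).card ≤ k := by
  classical
  intro e he
  have hcap : ∀ f ∈ H, f ≠ e → k - 1 ≤ (e ∩ f).card → (e ∩ f).card = k - 1 := by
    intro f hf hne hcard
    have hlt : (e ∩ f).card < k := by
      rw [← hH e he]
      refine card_lt_card ⟨inter_subset_left, fun h => hne ?_⟩
      have h1 : e ⊆ f := fun x hx => (mem_inter.1 (h hx)).2
      exact (eq_of_subset_of_card_le h1 (by rw [hH e he, hH f hf])).symm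
    omega
  have : (H.filter (fun f => f ≠ e ∧ k - 1 ≤ (e ∩ f).card)).card ≤ (e.powersetCard (k - 1)).card := by
    refine card_le_card_of_injOn (fun f => e ∩ f) ?_ ?_
    · intro f hf
      rw [mem_coe, mem_filter] at hf
      rw [mem_coe, mem_powersetCard]
      exact ⟨inter_subset_left, hcap f hf.1 hf.2.1 hf.2.2⟩
    · intro f hf g hg hfg
      rw [mem_coe, mem_filter] at hf hg
      simp only at hfg
      by_contra hne
      have h1 := hco (e ∩ f) (hcap f hf.1 hf.2.1 hf.2.2)
      have h2 : ({e, f, g} : Finset (Finset (Fin n))) ⊆ H.filter (fun x => e ∩ f ⊆ x) := by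
        intro x hx
        rw [mem_insert, mem_insert, mem_singleton] at hx
        rw [mem_filter]
        rcases hx with rfl | rfl | rfl
        · exact ⟨he, inter_subset_left⟩
        · exact ⟨hf.1, inter_subset_right⟩
        · exact ⟨hg.1, by rw [hfg]; exact inter_subset_right⟩
      have h3 := (card_le_card h2).trans h1
      rw [card_eq_three.2 ⟨e, f, g, hf.2.1.symm, hg.2.1.symm, hne, rfl⟩] at h3
      omega
  rw [card_powersetCard, hH e he] at this
  calc _ ≤ k.choose (k - 1) := this
    _ = k := by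
      obtain ⟨j, rfl⟩ : ∃ j, k = j + 1 := ⟨k - 1, by omega⟩
      simp

/-- The conclusion of the Aharoni–Zerbib conjecture with constant `t`: a family of at most
`t * |M|` sets of size `k - 1` meeting (being contained in) every edge, for a set `M` of edges
pairwise sharing fewer than `k - 1` vertices. -/
theorem result :
    ∀ k : ℕ, 3 ≤ k → ∀ n : ℕ, ∀ H : Finset (Finset (Fin n)), (∀ e ∈ H, e.card = k) →
      (∀ m : ℕ, (∃ c : Finset (Fin n) → ℕ, (∀ e ∈ H, c e < m) ∧
          ∀ e ∈ H, ∀ f ∈ H, e ≠ f → k - 1 ≤ (e ∩ f).card → c e ≠ c f) →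
        ∃ C M : Finset (Finset (Fin n)),
          (∀ s ∈ C, s.card = k - 1) ∧ (∀ e ∈ H, ∃ s ∈ C, s ⊆ e) ∧ M ⊆ H ∧
          (∀ e ∈ M, ∀ f ∈ M, e ≠ f → (e ∩ f).card < k - 1) ∧
          C.card ≤ (m + 1) / 2 * M.card) ∧
      (((∀ e ∈ H, (H.filter (fun f => f ≠ e ∧ k - 1 ≤ (e ∩ f).card)).card ≤
            2 * ((k + 2) / 2) - 1) ∨
          (∀ s : Finset (Fin n), s.card = k - 1 → (H.filter (fun e => s ⊆ e)).card ≤ 2) ∨
          (∃ φ : Fin n → ZMod (2 * ((k + 2) / 2)), ∀ e ∈ H, ∀ f ∈ H,
            ∀ x ∈ e, ∀ y ∈ f, x ≠ y → e.erase x = f.erase y → φ x ≠ φ y)) →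
        ∃ C M : Finset (Finset (Fin n)),
          (∀ s ∈ C, s.card = k - 1) ∧ (∀ e ∈ H, ∃ s ∈ C, s ⊆ e) ∧ M ⊆ H ∧
          (∀ e ∈ M, ∀ f ∈ M, e ≠ f → (e ∩ f).card < k - 1) ∧
          C.card ≤ (k + 2) / 2 * M.card) := by
  classical
  intro k hk n H hH
  refine ⟨?_, ?_⟩
  · rintro m ⟨c, hcm, hc⟩
    exact colour_bound k (by omega) m H hH c hcm hc
  · intro hyp
    have hfin : ∀ D : ℕ, D + 1 ≤ 2 * ((k + 2) / 2) →
        (∃ c : Finset (Fin n) → ℕ, (∀ e ∈ H, c e < D + 1) ∧
          ∀ e ∈ H, ∀ f ∈ H, e ≠ f → k - 1 ≤ (e ∩ f).card → c e ≠ c f) →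
        ∃ C M : Finset (Finset (Fin n)),
          (∀ s ∈ C, s.card = k - 1) ∧ (∀ e ∈ H, ∃ s ∈ C, s ⊆ e) ∧ M ⊆ H ∧
          (∀ e ∈ M, ∀ f ∈ M, e ≠ f → (e ∩ f).card < k - 1) ∧
          C.card ≤ (k + 2) / 2 * M.card := by
      rintro D hD ⟨c, hcm, hc⟩
      obtain ⟨C, M, h1, h2, h3, h4, h5⟩ := colour_bound k (by omega) (2 * ((k + 2) / 2)) H hH c
        (fun e he => lt_of_lt_of_le (hcm e he) hD) hc
      refine ⟨C, M, h1, h2, h3, h4, ?_⟩
      have : (2 * ((k + 2) / 2) + 1) / 2 = (k + 2) / 2 := by omega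
      rwa [this] at h5
    rcases hyp with hyp | hyp | ⟨φ, hφ⟩
    · exact hfin (2 * ((k + 2) / 2) - 1) (by omega) (greedy k _ H hyp H (Subset.refl H))
    · have hd := codeg k (by omega) H hH hyp
      exact hfin k (by omega) (greedy k _ H hd H (Subset.refl H))
    · have : NeZero (2 * ((k + 2) / 2)) := ⟨by omega⟩
      refine hfin (2 * ((k + 2) / 2) - 1) (by omega) ⟨fun e => (∑ v ∈ e, φ v).val, ?_, ?_⟩
      · intro e _
        have := ZMod.val_lt (∑ v ∈ e, φ v)
        show (∑ v ∈ e, φ v).val < _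
        omega
      · intro e he f hf hne hcard heq
        have hlt : (e ∩ f).card < k := by
          rw [← hH e he]
          refine card_lt_card ⟨inter_subset_left, fun h => hne ?_⟩
          have h1 : e ⊆ f := fun x hx => (mem_inter.1 (h hx)).2
          exact eq_of_subset_of_card_le h1 (by rw [hH e he, hH f hf])
        have hce : (e \ f).card = 1 := by
          have := card_sdiff_add_card_inter e f
          rw [hH e he] at this
          omega
        have hcf : (f \ e).card = 1 := by
          have := card_sdiff_add_card_inter f e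
          rw [hH f hf, inter_comm] at this
          omega
        obtain ⟨x, hx⟩ := card_eq_one.1 hce
        obtain ⟨y, hy⟩ := card_eq_one.1 hcf
        have hxe : x ∈ e \ f := by rw [hx]; exact mem_singleton_self x
        have hyf : y ∈ f \ e := by rw [hy]; exact mem_singleton_self y
        rw [mem_sdiff] at hxe hyf
        have hxy : x ≠ y := fun h => hxe.2 (h ▸ hyf.1)
        have her : e.erase x = e ∩ f := by
          rw [← sdiff_singleton_eq_erase x e, ← hx]
          ext v
          simp only [mem_sdiff, mem_inter]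
          tauto
        have hfr : f.erase y = e ∩ f := by
          rw [← sdiff_singleton_eq_erase y f, ← hy]
          ext v
          simp only [mem_sdiff, mem_inter]
          tauto
        have h1 := hφ e he f hf x hxe.1 y hyf.1 hxy (her.trans hfr.symm)
        have h2 : ∑ v ∈ e, φ v = ∑ v ∈ f, φ v := ZMod.val_injective _ heq
        rw [← add_sum_erase e φ hxe.1, ← add_sum_erase f φ hyf.1, her, hfr] at h2
        exact h1 (add_right_cancel h2)

end Pool.Agent.Results.MP_b0da8a_co.ColourableAdjacency
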